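import Pool.Agent.TH37.RF.Fin2

/-!
# Locally residually finite varieties of associative algebras over a finite field

A variety of associative algebras over a finite field `F`, given by a set `S` of identities, is
locally residually finite if and only if some identity in `S` does not follow from
`x₁ (x₂ x₃ - x₃ x₂) x₄ = 0`; this can be read off from the coefficients of the identities in `S`.
-/

set_option autoImplicit false

namespace Pool.Agent.Results.MP_5aea19_al.LocallyRF

/-- Noncommutative polynomials over `F` without constant term in the variables `x₀, x₁, x₂, …`: the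
free associative algebra without unit. Its basis `FreeSemigroup ℕ` is the set of nonempty words. -/
abbrev Poly (F : Type) [Field F] : Type := MonoidAlgebra F (FreeSemigroup ℕ)

/-- The algebra `A` satisfies the identity `f = 0`: every homomorphism from the free algebra to `A`
maps `f` to `0`. -/
def Satisfies {F : Type} [Field F] (A : Type) [NonUnitalRing A] [Module F A] [IsScalarTower F A A]
    [SMulCommClass F A A] (f : Poly F) : Prop :=
  ∀ a : ℕ → A, MonoidAlgebra.liftMagma F (FreeSemigroup.lift a) f = 0

/-- `A` is a finitely generated algebra. -/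
def FinGen (F A : Type) [Field F] [NonUnitalRing A] [Module F A] [IsScalarTower F A A]
    [SMulCommClass F A A] : Prop :=
  ∃ s : Set A, s.Finite ∧ NonUnitalAlgebra.adjoin F s = ⊤

/-- `A` is residually finite: for every nonzero `a` in `A` there is a homomorphism `φ` of `A` onto
a finite-dimensional algebra `B` with `φ a ≠ 0`. -/
def ResiduallyFinite (F A : Type) [Field F] [NonUnitalRing A] [Module F A] [IsScalarTower F A A]
    [SMulCommClass F A A] : Prop :=
  ∀ a : A, a ≠ 0 → ∃ (B : Type) (_ : NonUnitalRing B) (_ : Module F B) (_ : IsScalarTower F B B)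
    (_ : SMulCommClass F B B) (_ : Module.Finite F B) (φ : A →ₙₐ[F] B),
    Function.Surjective φ ∧ φ a ≠ 0

/-- The variety defined by the set `S` of identities is locally residually finite: every finitely
generated algebra satisfying all the identities in `S` is residually finite. -/
def LocallyResiduallyFinite {F : Type} [Field F] (S : Set (Poly F)) : Prop :=
  ∀ (A : Type) [NonUnitalRing A] [Module F A] [IsScalarTower F A A] [SMulCommClass F A A],
    (∀ f ∈ S, Satisfies A f) → FinGen F A → ResiduallyFinite F A

/-- The words `w` and `w'` have the same type: they have the same first letter and the same last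
letter, and each letter occurs equally often in both. -/
def SameType (w w' : FreeSemigroup ℕ) : Prop :=
  w.head = w'.head ∧ (w.head :: w.tail).getLast? = (w'.head :: w'.tail).getLast? ∧
    (w.head :: w.tail).Perm (w'.head :: w'.tail)

/-- The sum of the coefficients of `f` at the words of the same type as `w`. -/
noncomputable def typeSum {F : Type} [Field F] (f : Poly F) (w : FreeSemigroup ℕ) : F :=
  ∑ᶠ (w' : FreeSemigroup ℕ) (_ : SameType w w'), f.coeff w'

theorem sameType_iff (w w' : FreeSemigroup ℕ) :
    SameType w w' ↔ Pool.Agent.TH37.RF.SameType (Pool.Agent.TH37.RF.toL w)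
      (Pool.Agent.TH37.RF.toL w') := by
  rw [SameType, Pool.Agent.TH37.RF.SameType, Pool.Agent.TH37.RF.toL, Pool.Agent.TH37.RF.toL,
    List.head?_cons, List.head?_cons, Option.some_inj]

theorem trivial_iff {F : Type} [Field F] (f : Poly F) :
    Pool.Agent.TH37.RF.TrivialId (Pool.Agent.TH37.RF.toP f) ↔ ∀ w, typeSum f w = 0 := by
  rw [Pool.Agent.TH37.RF.trivial_iff]
  simp only [typeSum, sameType_iff]

/-- Let `F` be a finite field and `S` a set of identities. The following are equivalent:
the variety defined by `S` is locally residually finite; for some `f` in `S` and some word `w` the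
coefficients of `f` at the words of the same type as `w` have a nonzero sum; some algebra satisfying
`x (y z - z y) t = 0` does not lie in the variety (that is, some identity in `S` does not follow
from `x₁ (x₂ x₃ - x₃ x₂) x₄ = 0`). -/
theorem result (F : Type) [Field F] [Finite F] (S : Set (Poly F)) :
    List.TFAE [LocallyResiduallyFinite S,
      ∃ f ∈ S, ∃ w : FreeSemigroup ℕ, typeSum f w ≠ 0,
      ∃ (A : Type) (_ : NonUnitalRing A) (_ : Module F A) (_ : IsScalarTower F A A)
        (_ : SMulCommClass F A A), (∀ x y z t : A, x * (y * z - z * y) * t = 0) ∧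
          ¬ ∀ f ∈ S, Satisfies A f] := by
  have h12 : LocallyResiduallyFinite S → ∃ (A : Type) (_ : NonUnitalRing A) (_ : Module F A)
      (_ : IsScalarTower F A A) (_ : SMulCommClass F A A),
        (∀ x y z t : A, x * (y * z - z * y) * t = 0) ∧ ¬ ∀ f ∈ S, Satisfies A f := by
    intro h
    obtain ⟨A, i1, i2, i3, i4, hfg, hid, a, ha, hB⟩ := Pool.Agent.TH37.RF.nec' F
    refine ⟨A, i1, i2, i3, i4, hid, fun hS => ?_⟩
    obtain ⟨B, j1, j2, j3, j4, j5, φ, -, hφ⟩ := h A hS hfg a ha
    exact hφ (hB B φ)
  have h23 : (∃ (A : Type) (_ : NonUnitalRing A) (_ : Module F A)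
      (_ : IsScalarTower F A A) (_ : SMulCommClass F A A),
        (∀ x y z t : A, x * (y * z - z * y) * t = 0) ∧ ¬ ∀ f ∈ S, Satisfies A f) →
      ∃ f ∈ S, ∃ w : FreeSemigroup ℕ, typeSum f w ≠ 0 := by
    rintro ⟨A, i1, i2, i3, i4, hid, hS⟩
    by_contra hcon
    push Not at hcon
    apply hS
    intro f hf
    rw [Satisfies, Pool.Agent.TH37.RF.satisfies_iff]
    exact Pool.Agent.TH37.RF.sat_trivial hid _ ((trivial_iff f).2 (hcon f hf))
  have h31 : (∃ f ∈ S, ∃ w : FreeSemigroup ℕ, typeSum f w ≠ 0) → LocallyResiduallyFinite S := by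
    rintro ⟨f, hf, w, hw⟩ A _ _ _ _ hS ⟨s, hs, hgen⟩ a ha
    have h1 : ¬ Pool.Agent.TH37.RF.TrivialId (Pool.Agent.TH37.RF.toP f) :=
      fun h => hw ((trivial_iff f).1 h w)
    have h2 := hS f hf
    rw [Satisfies, Pool.Agent.TH37.RF.satisfies_iff] at h2
    exact Pool.Agent.TH37.RF.nonunital_rf _ h1 h2 s hs hgen a ha
  tfae_have 1 → 3 := h12
  tfae_have 3 → 2 := h23
  tfae_have 2 → 1 := h31
  tfae_finish

end Pool.Agent.Results.MP_5aea19_al.LocallyRF
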